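import Pool.Agent.Q16.CC.Flx0

/-!
Project CC, job FLX: the terms of the local energy identity at one time.
-/

set_option autoImplicit false

open MeasureTheory Set Metric Filter Topology
open scoped ContDiff
open H459R3.NS Pool.Agent.W268.NS Pool.Agent.Q67.VD Pool.Agent.Q85.CC

namespace Pool.Agent.Q16.CC

theorem flx : StmVel → StmNear → StmDec → StmFlx := by
  rintro ⟨CV, hCV, hVel⟩ hNear ⟨CD, hCD, hDec⟩ K H ρ δ D hK hH hρ hρ1 hδ hD
  -- constants
  obtain ⟨A, hA⟩ : ∃ A : ℝ, A = K + H := ⟨_, rfl⟩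
  have hA0 : 0 ≤ A := by rw [hA]; positivity
  have hKA : K ≤ A := by rw [hA]; linarith
  obtain ⟨a, ha⟩ : ∃ a : ℝ, a = 3 * CV ^ 2 * (D + 1) + 36 * CD * CV ^ 2 * D := ⟨_, rfl⟩
  have ha0 : 0 < a := by rw [ha]; positivity
  obtain ⟨b, hb⟩ : ∃ b : ℝ, b = 36 * CV * (72 * K + 64 * A) * D * CD := ⟨_, rfl⟩
  have hb0 : 0 ≤ b := by rw [hb]; positivity
  obtain ⟨δ', hδ'⟩ : ∃ δ' : ℝ, δ' = δ / (2 * (a + 48 * b * CV)) := ⟨_, rfl⟩
  have hδ'0 : 0 < δ' := by rw [hδ']; positivity
  obtain ⟨CN, hCN, hN⟩ := hNear K A δ' hK hA0 hδ'0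
  refine ⟨(a + 96 * b * CV) * CN + b / (ρ / 8) ^ 4, by positivity, ?_⟩
  intro v q m Q hv hq hGsp hlap hMor hE hQ n hn x φ hφ hsupp hpd hlapφ
  obtain ⟨r, hrdef⟩ : ∃ r : ℝ, r = ρ / 2 ^ n := ⟨_, rfl⟩
  rw [← hrdef] at hsupp hpd hlapφ ⊢
  have hr : 0 < r := by rw [hrdef]; positivity
  have h2n : ρ = 2 ^ n * r := by rw [hrdef]; field_simp
  obtain ⟨f, hf⟩ : ∃ f : V → ℝ, f = om v := ⟨_, rfl⟩
  have hfc : Continuous f := by rw [hf]; exact Pool.Agent.Q199.VD.om_cont hv.1
  have hf0 : ∀ y, 0 ≤ f y := fun y => by rw [hf]; exact Pool.Agent.Q199.VD.om_nonneg v y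
  have hfp : Per f := by
    intro i y
    rw [hf]
    unfold om
    congr 1
    funext j
    exact (Pool.Agent.Q199.VD.sp_vort hv.1 j).per i y
  rw [← hf] at hMor
  -- the majorants
  obtain ⟨w, hw⟩ : ∃ w : ℝ → V → ℝ, w = fun s y => pot s f y + A / s := ⟨_, rfl⟩
  have hwc : ∀ s, Continuous (w s) := fun s => by rw [hw]; exact (pot_cont hfp hfc s).add continuous_const
  have hwp : ∀ s, Per (w s) := fun s => by
    rw [hw]
    intro i y
    show pot s f (y + Pi.single i 1) + A / s = pot s f y + A / s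
    rw [pot_per hfp s i y]
  have hw0 : ∀ s, 0 < s → ∀ y, 0 ≤ w s y := fun s hs y => by
    rw [hw]
    exact add_nonneg (pot_nonneg f s y) (div_nonneg hA0 hs.le)
  have hvw : ∀ s, 0 < s → s ≤ ρ → ∀ y i, |v y i| ≤ CV * w s y := by
    intro s hs hsρ y i
    refine ((hVel v K ρ s hv hK hs hsρ hρ1 (by rw [← hf]; exact hMor) y i).1).trans ?_
    rw [hw, ← hf]
    have h1 : √(energy v / ρ ^ 3) ≤ H / s := by
      refine hE.trans ?_
      rw [le_div_iff₀ hs]
      nlinarith
    have h2 : A / s = K / s + H / s := by rw [hA]; ring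
    have h3 : CV * (pot s f y + K / s + √(energy v / ρ ^ 3)) ≤ CV * (pot s f y + A / s) := by
      apply mul_le_mul_of_nonneg_left _ hCV.le
      rw [h2]
      linarith
    exact h3
  -- the scales
  have hscale : ∀ j ≤ n - 3, 8 * (2 ^ j * r) ≤ ρ := by
    intro j hj
    have h1 : (2 : ℝ) ^ j * 8 ≤ 2 ^ n := by
      have : (2 : ℝ) ^ j * 2 ^ 3 ≤ 2 ^ n := by
        rw [← pow_add]
        exact pow_le_pow_right₀ (by norm_num) (by omega)
      linarith
    rw [h2n]
    nlinarith
  have hMj : ∀ j ≤ n - 3, Mor K (8 * (2 ^ j * r)) f := fun j hj y s hs hs' => hMor y s hs (hs'.trans (hscale j hj))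
  obtain ⟨F, hF⟩ : ∃ F : ℕ → ℝ, F = fun j => ∫ y in closedBall x (8 * (2 ^ j * r)), f y ^ 2 := ⟨_, rfl⟩
  have hF0 : ∀ j, 0 ≤ F j := fun j => by rw [hF]; exact integral_nonneg fun y => sq_nonneg _
  have hFB : ∀ j, F j ≤ 2 * W221.NS.B2 x (2 ^ (j + 3) * r) v := by
    intro j
    rw [hF, hf]
    have e : 8 * ((2 : ℝ) ^ j * r) = 2 ^ (j + 3) * r := by rw [pow_add]; ring
    show ∫ y in closedBall x (8 * (2 ^ j * r)), om v y ^ 2 ≤ _
    rw [e]
    exact int_om_sq hv.1 x _
  have hfw : ∀ s, 0 < s → Continuous fun y => f y * w s y := fun s _ => hfc.mul (hwc s)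
  have hnear : ∀ j ≤ n - 3,
      (∫ y in closedBall x (4 * (2 ^ j * r)), w (2 ^ j * r) y ^ 2) / (2 ^ j * r) ^ 2 ≤ δ' * F j + CN / (2 ^ j * r) ∧
      (∫ y in closedBall x (4 * (2 ^ j * r)), w (2 ^ j * r) y * pot (2 ^ j * r) (fun z => f z * w (2 ^ j * r) z) y) /
        (2 ^ j * r) ≤ δ' * F j + CN / (2 ^ j * r) ∧
      (∫ y in closedBall x (4 * (2 ^ j * r)), f y * w (2 ^ j * r) y) / (2 ^ j * r) ≤ δ' * F j + CN / (2 ^ j * r) := by
    intro j hj
    have hs : 0 < 2 ^ j * r := by positivity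
    have h1 := hN (2 ^ j * r) f hs hfc hf0 (hMj j hj) x
    have e1 : ∀ y, pot (2 ^ j * r) f y + A / (2 ^ j * r) = w (2 ^ j * r) y := fun y => by rw [hw]
    simp only [e1] at h1
    have t1 : 0 ≤ (∫ y in closedBall x (4 * (2 ^ j * r)), w (2 ^ j * r) y ^ 2) / (2 ^ j * r) ^ 2 :=
      div_nonneg (integral_nonneg fun y => sq_nonneg _) (by positivity)
    have t2 : 0 ≤ (∫ y in closedBall x (4 * (2 ^ j * r)), w (2 ^ j * r) y *
        pot (2 ^ j * r) (fun z => f z * w (2 ^ j * r) z) y) / (2 ^ j * r) :=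
      div_nonneg (integral_nonneg fun y => mul_nonneg (hw0 _ hs y) (pot_nonneg _ _ _)) hs.le
    have t3 : 0 ≤ (∫ y in closedBall x (4 * (2 ^ j * r)), f y * w (2 ^ j * r) y) / (2 ^ j * r) :=
      div_nonneg (integral_nonneg fun y => mul_nonneg (hf0 y) (hw0 _ hs y)) hs.le
    have e2 : δ' * F j = δ' * (∫ y in closedBall x (8 * (2 ^ j * r)), f y ^ 2) := by rw [hF]
    rw [e2]
    exact ⟨by linarith, by linarith, by linarith⟩
  obtain ⟨n1, n2, n3⟩ := hnear 0 (Nat.zero_le _)
  rw [pow_zero, one_mul] at n1 n2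
  have hrρ : r ≤ ρ := by
    have := hscale 0 (Nat.zero_le _)
    rw [pow_zero, one_mul] at this
    linarith
  obtain ⟨NN, hNN⟩ : ∃ NN : ℝ, NN = δ' * F 0 + CN / r := ⟨_, rfl⟩
  rw [← hNN] at n1 n2
  have hsub : closedBall x (2 * r) ⊆ closedBall x (4 * r) := closedBall_subset_closedBall (by linarith)
  have hvc : ∀ i, Continuous fun y => v y i := fun i => (hv.1 i).cont
  -- |v|² on the ball
  have hnsq : ∀ y, W221.NS.nsq v y ≤ 3 * CV ^ 2 * w r y ^ 2 := by
    intro y
    unfold W221.NS.nsq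
    have h1 : ∀ i ∈ (Finset.univ : Finset (Fin 3)), v y i ^ 2 ≤ (CV * w r y) ^ 2 := fun i _ => by
      rw [← sq_abs (v y i)]
      exact pow_le_pow_left₀ (abs_nonneg _) (hvw r hr hrρ y i) 2
    refine (Finset.sum_le_sum h1).trans ?_
    rw [Finset.sum_const, Finset.card_univ, Fintype.card_fin, nsmul_eq_mul]
    push_cast
    linarith
  have hnsq0 : ∀ y, 0 ≤ W221.NS.nsq v y := fun y => Finset.sum_nonneg fun i _ => sq_nonneg _
  have hI2 : ∫ y in closedBall x (2 * r), W221.NS.nsq v y ≤ 3 * CV ^ 2 * (r ^ 2 * NN) := by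
    have h1 : ∫ y in closedBall x (2 * r), W221.NS.nsq v y ≤ ∫ y in closedBall x (4 * r), 3 * CV ^ 2 * w r y ^ 2 := by
      refine (setIntegral_mono_set (integrableOn_ball (nsq_cont hv.1) _ _) (Eventually.of_forall hnsq0)
        (Eventually.of_forall hsub)).trans ?_
      exact setIntegral_mono_on (integrableOn_ball (nsq_cont hv.1) _ _)
        (integrableOn_ball (continuous_const.mul ((hwc r).pow 2)) _ _) measurableSet_closedBall fun y _ => hnsq y
    rw [integral_const_mul] at h1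
    refine h1.trans (mul_le_mul_of_nonneg_left ?_ (by positivity))
    rw [div_le_iff₀ (by positivity)] at n1
    linarith
  have hT3 : (∫ y in closedBall x (2 * r), W221.NS.nsq v y) / r ^ 2 ≤ 3 * CV ^ 2 * NN := by
    rw [div_le_iff₀ (by positivity)]
    linarith
  have hT1 : |∫ y, W221.NS.nsq v y * lap φ y| ≤ 3 * CV ^ 2 * D * NN := by
    have h1 := int_off (F := fun y => W221.NS.nsq v y * lap φ y) (g := fun y => D / r ^ 2 * W221.NS.nsq v y)
      (x := x) (R := 2 * r) (fun y hy => by rw [lap_off hsupp hy, mul_zero])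
      (integrableOn_ball (continuous_const.mul (nsq_cont hv.1)) _ _) (fun y _ => by
        rw [abs_mul, abs_of_nonneg (hnsq0 y), mul_comm]
        exact mul_le_mul_of_nonneg_right (hlapφ y) (hnsq0 y))
    rw [integral_const_mul] at h1
    refine h1.trans ?_
    calc D / r ^ 2 * ∫ y in closedBall x (2 * r), W221.NS.nsq v y ≤ D / r ^ 2 * (3 * CV ^ 2 * (r ^ 2 * NN)) := by
          gcongr
      _ = 3 * CV ^ 2 * D * NN := by field_simp
  -- the transport term
  have hadvc : Continuous (W221.NS.adv v φ) := by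
    unfold W221.NS.adv
    refine continuous_finsetSum _ fun i _ => (hvc i).mul ?_
    exact (hφ.continuous_fderiv (by norm_num)).clm_apply continuous_const
  have hadv0 : ∀ y, y ∉ closedBall x (2 * r) → W221.NS.adv v φ y = 0 := by
    intro y hy
    unfold W221.NS.adv
    exact Finset.sum_eq_zero fun j _ => by rw [pd_off hsupp hy, mul_zero]
  have hadv : ∀ y, |W221.NS.adv v φ y| ≤ 3 * CV * D / r * w r y := by
    intro y
    unfold W221.NS.adv
    refine (Finset.abs_sum_le_sum_abs _ _).trans ?_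
    have h1 : ∀ j ∈ (Finset.univ : Finset (Fin 3)), |v y j * pd j φ y| ≤ (CV * w r y) * (D / r) := fun j _ => by
      rw [abs_mul]
      exact mul_le_mul (hvw r hr hrρ y j) (hpd y j) (abs_nonneg _) (mul_nonneg hCV.le (hw0 r hr y))
    refine (Finset.sum_le_sum h1).trans (le_of_eq ?_)
    rw [Finset.sum_const, Finset.card_univ, Fintype.card_fin, nsmul_eq_mul]
    push_cast
    ring
  have hcs : HasCompactSupport φ := cs_of hsupp
  have hadvcs : HasCompactSupport (W221.NS.adv v φ) := by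
    refine HasCompactSupport.intro (isCompact_closedBall x (2 * r)) hadv0
  have hadvI : ∫ y, W221.NS.adv v φ y = 0 := by
    unfold W221.NS.adv
    have hint : ∀ j ∈ (Finset.univ : Finset (Fin 3)), Integrable fun y => v y j * pd j φ y := fun j _ => by
      refine ((hvc j).mul ((hφ.continuous_fderiv (by norm_num)).clm_apply
        continuous_const)).integrable_of_hasCompactSupport ?_
      exact HasCompactSupport.mul_left (hcs.fderiv_apply (𝕜 := ℝ) _)
    rw [integral_finsetSum _ hint]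
    have h1 : ∀ j : Fin 3, ∫ y, v y j * pd j φ y = -∫ y, φ y * pd j (fun z => v z j) y := by
      intro j
      rw [Pool.Agent.Q199.VD.ibp_cut (hφ.of_le (by norm_cast)) hcs ((hv.1 j).smooth.of_le (by norm_cast)) j, neg_neg]
      congr 1
      funext y
      ring
    simp only [h1]
    rw [Finset.sum_neg_distrib, ← integral_finsetSum]
    · have h2 : ∀ y, ∑ j, φ y * pd j (fun z => v z j) y = 0 := fun y => by
        rw [← Finset.mul_sum, hv.2, mul_zero]
      simp only [h2, integral_zero, neg_zero]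
    · intro j _
      exact (hφ.continuous.mul ((hv.1 j).pd j).cont).integrable_of_hasCompactSupport hcs.mul_right
  -- the decomposition of the pressure
  obtain ⟨g, hg⟩ : ∃ g : V → ℝ, g = fun y => q y - m := ⟨_, rfl⟩
  have hgsp : SP g := by
    rw [hg]
    exact ⟨hq.smooth.sub contDiff_const, fun i y => by simp only [hq.per i y]⟩
  have hpdg : ∀ j, pd j g = pd j q := by
    intro j
    funext y
    rw [hg]
    unfold pd
    rw [fderiv_sub_const]
  have hlapg : ∀ y, lap g y = ∑ i, pd i (fun z => crossProduct (v z) (vort v z) i) y := by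
    intro y
    rw [← hlap]
    unfold lap
    simp only [hpdg]
  have hL8 : r ≤ ρ / 8 := by
    have := hscale 0 (Nat.zero_le _)
    rw [pow_zero, one_mul] at this
    linarith
  obtain ⟨g₂, hg₂, hd1, hd2⟩ := hDec r (ρ / 8) g (fun i y => crossProduct (v y) (vort v y) i) hr hL8 (by linarith)
    hgsp hGsp hlapg
  have hG : ∀ s, 0 < s → s ≤ ρ → ∀ i y, |crossProduct (v y) (vort v y) i| ≤ 2 * CV * (f y * w s y) := by
    intro s hs hsρ i y
    have h1 := cross_abs_le (a := v y) (b := vort v y) (A := CV * w s y) (B := f y) (hvw s hs hsρ y)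
      (fun i => by rw [hf]; exact Pool.Agent.Q199.VD.abs_le_len _ i) i
    refine h1.trans (le_of_eq ?_)
    ring
  -- first part: `g - g₂`
  have hpotG : ∀ i y, pot r (fun z => crossProduct (v z) (vort v z) i) y ≤ 2 * CV * pot r (fun z => f z * w r z) y := by
    intro i y
    have h1 := pot_le (f := fun z => crossProduct (v z) (vort v z) i) (g := fun z => f z * w r z) (hGsp i).per
      (hGsp i).cont (fun j z => by simp only [hfp j z, hwp r j z]) (hfw r hr) (ρ := r) (δ := 2 * CV) (M := 0) hr.le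
      (x := y) (fun z _ => by
        rw [abs_of_nonneg (mul_nonneg (hf0 _) (hw0 r hr _)), add_zero]
        exact hG r hr hrρ i (y + z))
    linarith
  have hwpc : Continuous (pot r (fun z => f z * w r z)) :=
    pot_cont (fun j z => by simp only [hfp j z, hwp r j z]) (hfw r hr) r
  have hP1 : |∫ y, (g y - g₂ y) * W221.NS.adv v φ y| ≤ 18 * CD * CV ^ 2 * D * NN := by
    have h1 := int_off (F := fun y => (g y - g₂ y) * W221.NS.adv v φ y)
      (g := fun y => 18 * CD * CV ^ 2 * D / r * (w r y * pot r (fun z => f z * w r z) y)) (x := x) (R := 2 * r)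
      (fun y hy => by rw [hadv0 y hy, mul_zero])
      (integrableOn_ball (continuous_const.mul ((hwc r).mul hwpc)) _ _) (fun y _ => by
        rw [abs_mul]
        have h2 : |g y - g₂ y| ≤ 6 * CD * CV * pot r (fun z => f z * w r z) y := by
          refine (hd1 y).trans ?_
          have h3 : ∑ i, pot r ((fun i y => crossProduct (v y) (vort v y) i) i) y ≤
              ∑ _i : Fin 3, 2 * CV * pot r (fun z => f z * w r z) y := Finset.sum_le_sum fun i _ => hpotG i y
          rw [Finset.sum_const, Finset.card_univ, Fintype.card_fin, nsmul_eq_mul] at h3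
          push_cast at h3
          calc CD * ∑ i, pot r ((fun i y => crossProduct (v y) (vort v y) i) i) y ≤
                CD * (3 * (2 * CV * pot r (fun z => f z * w r z) y)) := mul_le_mul_of_nonneg_left h3 hCD.le
            _ = _ := by ring
        have h4 : 0 ≤ 6 * CD * CV * pot r (fun z => f z * w r z) y :=
          mul_nonneg (by positivity) (pot_nonneg _ _ _)
        refine (mul_le_mul h2 (hadv y) (abs_nonneg _) h4).trans (le_of_eq ?_)
        ring)
    refine h1.trans ?_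
    have h5 : ∫ y in closedBall x (2 * r), 18 * CD * CV ^ 2 * D / r * (w r y * pot r (fun z => f z * w r z) y) ≤
        ∫ y in closedBall x (4 * r), 18 * CD * CV ^ 2 * D / r * (w r y * pot r (fun z => f z * w r z) y) :=
      setIntegral_mono_set (integrableOn_ball (continuous_const.mul ((hwc r).mul hwpc)) _ _)
        (Eventually.of_forall fun y => mul_nonneg (by positivity) (mul_nonneg (hw0 r hr y) (pot_nonneg _ _ _)))
        (Eventually.of_forall hsub)
    refine h5.trans ?_
    rw [integral_const_mul]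
    calc 18 * CD * CV ^ 2 * D / r * (∫ y in closedBall x (4 * r), w r y * pot r (fun z => f z * w r z) y) =
          18 * CD * CV ^ 2 * D * ((∫ y in closedBall x (4 * r), w r y * pot r (fun z => f z * w r z) y) / r) := by ring
      _ ≤ 18 * CD * CV ^ 2 * D * NN := by gcongr
  -- second part: `g₂`
  obtain ⟨S0, hS0⟩ : ∃ S0 : ℝ, S0 = ∑ j ∈ Finset.range (n - 2), (δ' * ((1 / 4) ^ j * F j) + CN * ((1 / 8) ^ j / r)) :=
    ⟨_, rfl⟩
  have hfar : ∀ y ∈ closedBall x (2 * r), ∀ i, far r (ρ / 8) (fun z => crossProduct (v z) (vort v z) i) y ≤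
      16 * CV * (S0 / r ^ 2) := by
    intro y hy i
    have h1 := far_le (hGsp i).cont y hr (n - 2)
    have e1 : 2 ^ (n - 2) * (r / 2) = ρ / 8 := by
      obtain ⟨k, rfl⟩ : ∃ k, n = k + 2 := ⟨n - 2, by omega⟩
      rw [h2n, Nat.add_sub_cancel, pow_add]
      ring
    rw [e1] at h1
    unfold far
    refine h1.trans ?_
    rw [hS0, Finset.sum_div, Finset.mul_sum]
    refine Finset.sum_le_sum fun j hj => ?_
    rw [Finset.mem_range] at hj
    have hj' : j ≤ n - 3 := by omega
    obtain ⟨s, hs⟩ : ∃ s : ℝ, s = 2 ^ j * r := ⟨_, rfl⟩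
    have hs0 : 0 < s := by rw [hs]; positivity
    have hs8 := hscale j hj'
    rw [← hs] at hs8
    have h2j : (1 : ℝ) ≤ 2 ^ j := one_le_pow₀ (by norm_num)
    have hrs : r ≤ s := by rw [hs]; nlinarith
    have hsub2 : closedBall y s ⊆ closedBall x (4 * s) := by
      intro z hz
      rw [mem_closedBall] at hz hy ⊢
      linarith [dist_triangle z y x]
    have h3 : ∫ z in closedBall y s, |crossProduct (v z) (vort v z) i| ≤
        2 * CV * ∫ z in closedBall x (4 * s), f z * w s z := by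
      rw [← integral_const_mul]
      refine (setIntegral_mono_set (integrableOn_ball (hGsp i).cont.abs _ _) (Eventually.of_forall fun z => abs_nonneg _)
        (Eventually.of_forall hsub2)).trans ?_
      exact setIntegral_mono_on (integrableOn_ball (hGsp i).cont.abs _ _)
        (integrableOn_ball (continuous_const.mul (hfw s hs0)) _ _) measurableSet_closedBall
        fun z _ => hG s hs0 (by linarith) i z
    have h4 := (hnear j hj').2.2
    rw [← hs, div_le_iff₀ hs0] at h4
    rw [← hs]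
    calc 8 / s ^ 3 * ∫ z in closedBall y s, |crossProduct (v z) (vort v z) i| ≤
          8 / s ^ 3 * (2 * CV * ((δ' * F j + CN / s) * s)) := by
          gcongr
          exact h3.trans (by gcongr)
      _ = 16 * CV * ((δ' * F j + CN / s) / s ^ 2) := by field_simp; ring
      _ = 16 * CV * ((δ' * ((1 / 4) ^ j * F j) + CN * ((1 / 8) ^ j / r)) / r ^ 2) := by
          have e2 : (1 / 4 : ℝ) ^ j = 1 / (2 ^ j) ^ 2 := by
            rw [one_div, inv_pow, ← pow_mul, mul_comm, pow_mul]
            norm_num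
          have e3 : (1 / 8 : ℝ) ^ j = 1 / (2 ^ j) ^ 3 := by
            rw [one_div, inv_pow, ← pow_mul, mul_comm, pow_mul]
            norm_num
          rw [e2, e3, hs]
          field_simp
  have hgI : ∀ y, ∫ z in closedBall (0 : V) (ρ / 8), |g (y + z)| ≤ Q := by
    intro y
    rw [int_tr (fun z => |g z|) y (ρ / 8)]
    refine (int_ball_le hgsp.cont.abs (fun i z => by simp only [hgsp.per i z]) (fun z => abs_nonneg _) y
      (by linarith)).trans ?_
    rw [hg]
    exact hQ
  obtain ⟨S, hS⟩ : ∃ S : ℝ, S = CD * (48 * CV * (S0 / r ^ 2) + Q / (ρ / 8) ^ 4) := ⟨_, rfl⟩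
  have hgrad : ∀ y ∈ closedBall x (2 * r), ∀ j, |pd j g₂ y| ≤ S := by
    intro y hy j
    refine (hd2 y j).trans ?_
    rw [hS]
    refine mul_le_mul_of_nonneg_left ?_ hCD.le
    have h1 : ∑ i, far r (ρ / 8) ((fun i y => crossProduct (v y) (vort v y) i) i) y ≤
        ∑ _i : Fin 3, 16 * CV * (S0 / r ^ 2) := Finset.sum_le_sum fun i _ => hfar y hy i
    rw [Finset.sum_const, Finset.card_univ, Fintype.card_fin, nsmul_eq_mul] at h1
    push_cast at h1
    have h2 : (∫ z in closedBall (0 : V) (ρ / 8), |g (y + z)|) / (ρ / 8) ^ 4 ≤ Q / (ρ / 8) ^ 4 := by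
      gcongr
      exact hgI y
    linarith
  have hSnn : 0 ≤ S := (abs_nonneg _).trans (hgrad x (mem_closedBall_self (by positivity)) 0)
  have hwI : ∫ y in closedBall x (2 * r), w r y ≤ (72 * K + 64 * A) * r ^ 2 := by
    have e1 : ∫ y in closedBall x (2 * r), w r y = (∫ y in closedBall x (2 * r), pot r f y) +
        ∫ _y in closedBall x (2 * r), A / r := by
      rw [hw]
      exact integral_add (integrableOn_ball (pot_cont hfp hfc r) _ _) (integrableOn_ball continuous_const _ _)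
    rw [e1, setIntegral_const, vol_ball_real x (by positivity), smul_eq_mul]
    have h1 := int_pot_le hfp hfc (K := K) (ρ := ρ) (R := 2 * r) x hr (by positivity)
      (by have := hscale 0 (Nat.zero_le _); rw [pow_zero, one_mul] at this; linarith) hMor
    have e2 : (2 * (2 * r)) ^ 3 * (A / r) = 64 * A * r ^ 2 := by
      field_simp
      ring
    rw [e2]
    nlinarith
  have hP2 : |∫ y, (g₂ y - g₂ x) * W221.NS.adv v φ y| ≤ 18 * CV * (72 * K + 64 * A) * D * (r ^ 2 * S) := by
    have h1 := int_off (F := fun y => (g₂ y - g₂ x) * W221.NS.adv v φ y)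
      (g := fun y => 18 * CV * D * S * w r y) (x := x) (R := 2 * r)
      (fun y hy => by rw [hadv0 y hy, mul_zero])
      (integrableOn_ball (continuous_const.mul (hwc r)) _ _) (fun y hy => by
        rw [abs_mul]
        have h2 := mv_ball hg₂.smooth (by positivity : 0 ≤ 2 * r) hgrad hy
        refine (mul_le_mul h2 (hadv y) (abs_nonneg _) (by positivity)).trans (le_of_eq ?_)
        field_simp
        ring)
    refine h1.trans ?_
    rw [integral_const_mul]
    calc 18 * CV * D * S * ∫ y in closedBall x (2 * r), w r y ≤ 18 * CV * D * S * ((72 * K + 64 * A) * r ^ 2) := by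
          gcongr
      _ = _ := by ring
  -- the identity
  have hi1 : Integrable fun y => (g y - g₂ y) * W221.NS.adv v φ y :=
    ((hgsp.cont.sub hg₂.cont).mul hadvc).integrable_of_hasCompactSupport hadvcs.mul_left
  have hi2 : Integrable fun y => (g₂ y - g₂ x) * W221.NS.adv v φ y :=
    ((hg₂.cont.sub continuous_const).mul hadvc).integrable_of_hasCompactSupport hadvcs.mul_left
  have hi3 : Integrable fun y => (m + g₂ x) * W221.NS.adv v φ y :=
    (continuous_const.mul hadvc).integrable_of_hasCompactSupport hadvcs.mul_left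
  have hid : ∫ y, q y * W221.NS.adv v φ y = (∫ y, (g y - g₂ y) * W221.NS.adv v φ y) +
      ∫ y, (g₂ y - g₂ x) * W221.NS.adv v φ y := by
    have e1 : ∀ y, q y * W221.NS.adv v φ y = ((g y - g₂ y) * W221.NS.adv v φ y +
        (g₂ y - g₂ x) * W221.NS.adv v φ y) + (m + g₂ x) * W221.NS.adv v φ y := by
      intro y
      rw [hg]
      ring
    simp only [e1]
    have hi12 : Integrable fun y => (g y - g₂ y) * W221.NS.adv v φ y + (g₂ y - g₂ x) * W221.NS.adv v φ y :=
      hi1.add hi2
    rw [integral_add hi12 hi3, integral_add hi1 hi2, integral_const_mul, hadvI, mul_zero, add_zero]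
  have hT2 : |2 * ∫ y, q y * W221.NS.adv v φ y| ≤ 36 * CD * CV ^ 2 * D * NN +
      36 * CV * (72 * K + 64 * A) * D * (r ^ 2 * S) := by
    rw [hid, abs_mul, abs_two]
    have h1 := abs_add_le (∫ y, (g y - g₂ y) * W221.NS.adv v φ y) (∫ y, (g₂ y - g₂ x) * W221.NS.adv v φ y)
    linarith
  -- the end
  have hsum : |∫ y, W221.NS.nsq v y * lap φ y| + |2 * ∫ y, q y * W221.NS.adv v φ y| +
      (∫ y in closedBall x (2 * r), W221.NS.nsq v y) / r ^ 2 ≤ a * NN + b * (48 * CV * S0 + r ^ 2 * (Q / (ρ / 8) ^ 4)) := by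
    have e1 : 36 * CV * (72 * K + 64 * A) * D * (r ^ 2 * S) = b * (48 * CV * S0 + r ^ 2 * (Q / (ρ / 8) ^ 4)) := by
      rw [hS, hb]
      field_simp
    have e2 : a * NN = 3 * CV ^ 2 * D * NN + 36 * CD * CV ^ 2 * D * NN + 3 * CV ^ 2 * NN := by rw [ha]; ring
    rw [← e1, e2]
    linarith
  refine hsum.trans ?_
  obtain ⟨S1, hS1⟩ : ∃ S1 : ℝ, S1 = ∑ j ∈ Finset.range (n - 2), (1 / 4 : ℝ) ^ j * F j := ⟨_, rfl⟩
  have hS0' : S0 ≤ δ' * S1 + 2 * (CN / r) := by
    rw [hS0, Finset.sum_add_distrib, ← Finset.mul_sum, ← Finset.mul_sum, ← hS1, ← Finset.sum_div]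
    have h1 : ∑ j ∈ Finset.range (n - 2), (1 / 8 : ℝ) ^ j ≤ 2 := by
      have h2 : ∑ j ∈ Finset.range (n - 2), (1 / 8 : ℝ) ^ j ≤ ∑ j ∈ Finset.range (n - 2), (1 / 2 : ℝ) ^ j :=
        Finset.sum_le_sum fun j _ => pow_le_pow_left₀ (by norm_num) (by norm_num) j
      exact h2.trans (sum_geometric_two_le _)
    have h3 : CN * ((∑ j ∈ Finset.range (n - 2), (1 / 8 : ℝ) ^ j) / r) ≤ CN * (2 / r) := by gcongr
    have e : CN * (2 / r) = 2 * (CN / r) := by ring
    linarith
  have hF0' : F 0 ≤ S1 := by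
    rw [hS1]
    have h1 := Finset.single_le_sum (f := fun j => (1 / 4 : ℝ) ^ j * F j) (s := Finset.range (n - 2))
      (fun j _ => mul_nonneg (by positivity) (hF0 j)) (Finset.mem_range.2 (by omega : 0 < n - 2))
    simpa using h1
  have hSB : S1 ≤ 2 * ∑ j ∈ Finset.range (n - 2), (1 / 4 : ℝ) ^ j * W221.NS.B2 x (2 ^ (j + 3) * r) v := by
    rw [hS1, Finset.mul_sum]
    refine Finset.sum_le_sum fun j _ => ?_
    have := mul_le_mul_of_nonneg_left (hFB j) (by positivity : (0 : ℝ) ≤ (1 / 4) ^ j)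
    linarith
  have hNN' : NN ≤ δ' * S1 + CN / r := by
    rw [hNN]
    have := mul_le_mul_of_nonneg_left hF0' hδ'0.le
    linarith
  have hCNr : 0 ≤ CN / r := by positivity
  calc a * NN + b * (48 * CV * S0 + r ^ 2 * (Q / (ρ / 8) ^ 4)) ≤
        a * (δ' * S1 + CN / r) + b * (48 * CV * (δ' * S1 + 2 * (CN / r)) + r ^ 2 * (Q / (ρ / 8) ^ 4)) := by
        gcongr
    _ = (δ' * (a + 48 * b * CV)) * S1 + ((a + 96 * b * CV) * CN * (1 / r) + b / (ρ / 8) ^ 4 * (r ^ 2 * Q)) := by
        ring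
    _ ≤ (δ' * (a + 48 * b * CV)) * (2 * ∑ j ∈ Finset.range (n - 2), (1 / 4 : ℝ) ^ j *
          W221.NS.B2 x (2 ^ (j + 3) * r) v) + ((a + 96 * b * CV) * CN * (1 / r) + b / (ρ / 8) ^ 4 * (r ^ 2 * Q)) := by
        gcongr
    _ ≤ δ * ∑ j ∈ Finset.range (n - 2), (1 / 4 : ℝ) ^ j * W221.NS.B2 x (2 ^ (j + 3) * r) v +
          ((a + 96 * b * CV) * CN + b / (ρ / 8) ^ 4) * (1 / r + r ^ 2 * Q) := by
        have e : δ' * (a + 48 * b * CV) = δ / 2 := by
          rw [hδ']
          field_simp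
        rw [e]
        have hQ0 : 0 ≤ Q := (integral_nonneg fun y => abs_nonneg _).trans hQ
        have h1 : 0 ≤ (a + 96 * b * CV) * CN * (r ^ 2 * Q) := by positivity
        have h2 : 0 ≤ b / (ρ / 8) ^ 4 * (1 / r) := by positivity
        nlinarith

end Pool.Agent.Q16.CC
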