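import Pool.Agent.Q85.CC.Defs2
import Pool.Agent.Q67.VD.Basic
import Pool.Agent.Q199.VD.Flux

/-!
Project CC, job FLX: preparations.
-/

set_option autoImplicit false

open MeasureTheory Set Metric Filter Topology
open scoped ContDiff
open H459R3.NS Pool.Agent.W268.NS Pool.Agent.Q67.VD

namespace Pool.Agent.Q16.CC

/-- translation of a ball -/
theorem int_tr (h : V → ℝ) (y : V) (R : ℝ) :
    ∫ z in closedBall (0 : V) R, h (y + z) = ∫ z in closedBall y R, h z := by
  have h1 := (measurePreserving_add_left (volume : Measure V) y).setIntegral_preimage_emb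
    (measurableEmbedding_addLeft y) h (closedBall y R)
  rw [← h1]
  congr 2
  ext z
  simp

theorem off_zero {φ : V → ℝ} {x : V} {R : ℝ} (h : ∀ y, φ y ≠ 0 → ‖y - x‖ ≤ R) {y : V}
    (hy : y ∉ closedBall x R) : φ =ᶠ[𝓝 y] fun _ => (0 : ℝ) := by
  filter_upwards [isClosed_closedBall.isOpen_compl.mem_nhds hy] with z hz
  by_contra h0
  apply hz
  rw [mem_closedBall, dist_eq_norm]
  exact h z h0

theorem pd_off {φ : V → ℝ} {x : V} {R : ℝ} (h : ∀ y, φ y ≠ 0 → ‖y - x‖ ≤ R) {y : V}
    (hy : y ∉ closedBall x R) (j : Fin 3) : pd j φ y = 0 := by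
  rw [pd, (off_zero h hy).fderiv_eq]
  simp

theorem pd_supp {φ : V → ℝ} {x : V} {R : ℝ} (h : ∀ y, φ y ≠ 0 → ‖y - x‖ ≤ R) (j : Fin 3) :
    ∀ y, pd j φ y ≠ 0 → ‖y - x‖ ≤ R := by
  intro y hy
  by_contra h1
  apply hy
  apply pd_off h
  rw [mem_closedBall, dist_eq_norm]
  exact h1

theorem lap_off {φ : V → ℝ} {x : V} {R : ℝ} (h : ∀ y, φ y ≠ 0 → ‖y - x‖ ≤ R) {y : V}
    (hy : y ∉ closedBall x R) : lap φ y = 0 := by
  unfold lap
  exact Finset.sum_eq_zero fun j _ => pd_off (pd_supp h j) hy j

theorem cs_of {φ : V → ℝ} {x : V} {R : ℝ} (h : ∀ y, φ y ≠ 0 → ‖y - x‖ ≤ R) : HasCompactSupport φ := by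
  refine HasCompactSupport.intro (isCompact_closedBall x R) fun y hy => ?_
  by_contra h0
  apply hy
  rw [mem_closedBall, dist_eq_norm]
  exact h y h0

/-- integral of a function which vanishes outside a ball -/
theorem int_off {F g : V → ℝ} {x : V} {R : ℝ} (h0 : ∀ y, y ∉ closedBall x R → F y = 0)
    (hg : IntegrableOn g (closedBall x R)) (h1 : ∀ y ∈ closedBall x R, |F y| ≤ g y) :
    |∫ y, F y| ≤ ∫ y in closedBall x R, g y := by
  rw [← setIntegral_eq_integral_of_forall_compl_eq_zero (s := closedBall x R) h0]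
  refine abs_integral_le_integral_abs.trans ?_
  by_cases hF : IntegrableOn (fun y => |F y|) (closedBall x R)
  · exact setIntegral_mono_on hF hg measurableSet_closedBall h1
  · rw [integral_undef hF]
    exact setIntegral_nonneg measurableSet_closedBall fun y hy => (abs_nonneg _).trans (h1 y hy)

theorem ball_ae (x : V) (R : ℝ) : (closedBall x R : Set V) =ᵐ[volume] ball x R := by
  have h1 : (closedBall x R : Set V) = ball x R ∪ sphere x R := (ball_union_sphere).symm
  rw [h1]
  exact union_ae_eq_left_of_ae_eq_empty (ae_eq_empty.2 (Measure.addHaar_sphere volume x R))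

/-- the potential is continuous, also for functions which are not periodic -/
theorem integrableOn_ball {f : V → ℝ} (hf : Continuous f) (x : V) (R : ℝ) : IntegrableOn f (closedBall x R) :=
  hf.continuousOn.integrableOn_compact (isCompact_closedBall _ _)

/-- the integral of the vorticity squared -/
theorem om_sq_le (v : V → V) (y : V) : om v y ^ 2 ≤ 2 * W221.NS.gsq v y := by
  rw [Pool.Agent.Q199.VD.om_sq]
  unfold W221.NS.gsq
  simp only [dotProduct, Fin.sum_univ_three]
  have e0 : vort v y 0 = pd 1 (fun z => v z 2) y - pd 2 (fun z => v z 1) y := rfl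
  have e1 : vort v y 1 = pd 2 (fun z => v z 0) y - pd 0 (fun z => v z 2) y := rfl
  have e2 : vort v y 2 = pd 0 (fun z => v z 1) y - pd 1 (fun z => v z 0) y := rfl
  rw [e0, e1, e2]
  nlinarith [sq_nonneg (pd 1 (fun z => v z 2) y + pd 2 (fun z => v z 1) y),
    sq_nonneg (pd 2 (fun z => v z 0) y + pd 0 (fun z => v z 2) y),
    sq_nonneg (pd 0 (fun z => v z 1) y + pd 1 (fun z => v z 0) y),
    sq_nonneg (pd 0 (fun z => v z 0) y), sq_nonneg (pd 1 (fun z => v z 1) y), sq_nonneg (pd 2 (fun z => v z 2) y)]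

theorem gsq_cont {v : V → V} (hv : ∀ i, SP (fun y => v y i)) : Continuous (W221.NS.gsq v) := by
  unfold W221.NS.gsq
  exact continuous_finsetSum _ fun i _ => continuous_finsetSum _ fun j _ => ((hv i).pd j).cont.pow 2

theorem int_om_sq {v : V → V} (hv : ∀ i, SP (fun y => v y i)) (x : V) (R : ℝ) :
    ∫ y in closedBall x R, om v y ^ 2 ≤ 2 * W221.NS.B2 x R v := by
  unfold W221.NS.B2
  rw [← setIntegral_congr_set (ball_ae x R), ← integral_const_mul]
  refine setIntegral_mono_on (integrableOn_ball ((Pool.Agent.Q199.VD.om_cont hv).pow 2) x R)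
    (integrableOn_ball (continuous_const.mul (gsq_cont hv)) x R) measurableSet_closedBall fun y _ => om_sq_le v y

theorem nsq_cont {v : V → V} (hv : ∀ i, SP (fun y => v y i)) : Continuous (W221.NS.nsq v) := by
  unfold W221.NS.nsq
  exact continuous_finsetSum _ fun i _ => (hv i).cont.pow 2

/-- the cross product -/
theorem cross_abs_le {a b : V} {A B : ℝ} (ha : ∀ i, |a i| ≤ A) (hb : ∀ i, |b i| ≤ B) (i : Fin 3) :
    |crossProduct a b i| ≤ 2 * (A * B) := by
  have hA : 0 ≤ A := (abs_nonneg _).trans (ha 0)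
  have h : ∀ j k l m : Fin 3, |a j * b k - a l * b m| ≤ 2 * (A * B) := by
    intro j k l m
    refine (abs_sub _ _).trans ?_
    rw [abs_mul, abs_mul]
    have h1 := mul_le_mul (ha j) (hb k) (abs_nonneg _) hA
    have h2 := mul_le_mul (ha l) (hb m) (abs_nonneg _) hA
    linarith
  rw [cross_apply]
  fin_cases i
  · exact h 1 2 2 1
  · exact h 2 0 0 2
  · exact h 0 1 1 0

/-- the mean value theorem -/
theorem mv_ball {g : V → ℝ} (hg : ContDiff ℝ ∞ g) {x : V} {R S : ℝ} (hR : 0 ≤ R)
    (hS : ∀ y ∈ closedBall x R, ∀ j, |pd j g y| ≤ S) {y : V} (hy : y ∈ closedBall x R) :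
    |g y - g x| ≤ 3 * S * R := by
  have hbd : ∀ z ∈ closedBall x R, ‖fderiv ℝ g z‖ ≤ 3 * S := by
    intro z hz
    have hS0 : 0 ≤ S := (abs_nonneg _).trans (hS z hz 0)
    refine ContinuousLinearMap.opNorm_le_bound _ (by positivity) fun w => ?_
    have e : w = ∑ j, w j • (Pi.single j 1 : V) := by
      funext k
      simp [Finset.sum_apply, Pi.single_apply]
    have e2 : fderiv ℝ g z w = ∑ j, w j * pd j g z := by
      conv_lhs => rw [e]
      rw [map_sum]
      refine Finset.sum_congr rfl fun j _ => ?_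
      rw [map_smul, smul_eq_mul]
      rfl
    rw [e2]
    refine (Finset.abs_sum_le_sum_abs _ _).trans ?_
    have h3 : ∀ j ∈ (Finset.univ : Finset (Fin 3)), |w j * pd j g z| ≤ ‖w‖ * S := by
      intro j _
      rw [abs_mul]
      exact mul_le_mul (by rw [← Real.norm_eq_abs]; exact norm_le_pi_norm w j) (hS z hz j) (abs_nonneg _) (norm_nonneg _)
    refine (Finset.sum_le_sum h3).trans ?_
    rw [Finset.sum_const, Finset.card_univ, Fintype.card_fin, nsmul_eq_mul]
    push_cast
    linarith
  have h1 := (convex_closedBall x R).norm_image_sub_le_of_norm_fderiv_le (𝕜 := ℝ)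
    (fun z _ => hg.differentiable (by norm_num) z) hbd (mem_closedBall_self hR) hy
  rw [Real.norm_eq_abs] at h1
  refine h1.trans ?_
  have hS0 : 0 ≤ S := (abs_nonneg _).trans (hS y hy 0)
  rw [mem_closedBall, dist_eq_norm] at hy
  gcongr

/-- Tonelli: the integral of the potential over a ball -/
theorem int_pot_le {f : V → ℝ} (hp : Per f) (hc : Continuous f) {K ρ R r : ℝ} (x : V) (hr : 0 < r) (hR : 0 ≤ R)
    (hRr : R + r ≤ ρ) (hM : Mor K ρ f) : ∫ y in closedBall x R, pot r f y ≤ 24 * r * (K * (R + r)) := by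
  obtain ⟨B, hB, hfB⟩ := per_bdd hp hc
  have hint : Integrable (Function.uncurry fun (y z : V) => |f (y + z)| / ‖z‖ ^ 2)
      ((volume.restrict (closedBall x R)).prod (volume.restrict (closedBall (0 : V) r))) := by
    have h1 : Integrable (fun p : V × V => B * (‖p.2‖ ^ 2)⁻¹)
        ((volume.restrict (closedBall x R)).prod (volume.restrict (closedBall (0 : V) r))) := by
      have h2 : Integrable (fun _ : V => B) (volume.restrict (closedBall x R)) :=
        integrableOn_const (by exact (isCompact_closedBall x R).measure_lt_top.ne)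
      exact h2.mul_prod (ker_int r)
    refine h1.mono' ?_ (Eventually.of_forall fun p => ?_)
    · refine Measurable.aestronglyMeasurable ?_
      have h3 : Measurable f := hc.measurable
      unfold Function.uncurry
      fun_prop
    · rw [Real.norm_eq_abs, Function.uncurry, abs_div, abs_abs, abs_of_nonneg (sq_nonneg ‖p.2‖), div_eq_mul_inv]
      exact mul_le_mul_of_nonneg_right (hfB _) (by positivity)
  unfold pot
  rw [integral_integral_swap hint]
  have hK : ∀ z ∈ closedBall (0 : V) r, ∫ y in closedBall x R, |f (y + z)| / ‖z‖ ^ 2 ≤ (K * (R + r)) * (‖z‖ ^ 2)⁻¹ := by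
    intro z hz
    have hz' : ‖z‖ ≤ r := by simpa using hz
    have e : ∫ y in closedBall x R, |f (y + z)| / ‖z‖ ^ 2 = (∫ y in closedBall x R, |f (y + z)|) * (‖z‖ ^ 2)⁻¹ := by
      rw [← integral_mul_const]
      rfl
    rw [e]
    refine mul_le_mul_of_nonneg_right ?_ (by positivity)
    have h1 := (measurePreserving_add_right (volume : Measure V) z).setIntegral_preimage_emb
      (measurableEmbedding_addRight z) (fun y => |f y|) (closedBall (x + z) R)
    have h2 : (fun y : V => y + z) ⁻¹' closedBall (x + z) R = closedBall x R := by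
      ext y
      simp
    rw [h2] at h1
    rw [h1]
    have h3 : closedBall (x + z) R ⊆ closedBall x (R + r) := by
      intro y hy
      rw [mem_closedBall] at hy ⊢
      have h4 : dist (x + z) x ≤ r := by rw [dist_eq_norm]; simpa using hz'
      linarith [dist_triangle y (x + z) x]
    refine (setIntegral_mono_set (integrableOn_ball hc.abs x (R + r)) (Eventually.of_forall fun y => abs_nonneg _)
      (Eventually.of_forall h3)).trans ?_
    exact hM x (R + r) (by positivity) hRr
  have hR2 : ∫ z in closedBall (0 : V) r, (K * (R + r)) * (‖z‖ ^ 2)⁻¹ = 24 * r * (K * (R + r)) := by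
    rw [integral_const_mul, ker_val hr.le]
    ring
  rw [← hR2]
  refine setIntegral_mono_on ?_ ((ker_int r).const_mul _) measurableSet_closedBall hK
  exact hint.swap.integral_prod_left

/-- the far part in dyadic shells -/
theorem far_le {G : V → ℝ} (hc : Continuous G) (y : V) {r : ℝ} (hr : 0 < r) (N : ℕ) :
    (∫ z in closedBall (0 : V) (2 ^ N * (r / 2)) \ closedBall 0 (r / 2), |G (y + z)| / ‖z‖ ^ 3) ≤
      ∑ j ∈ Finset.range N, 8 / (2 ^ j * r) ^ 3 * ∫ z in closedBall y (2 ^ j * r), |G z| := by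
  have hI : ∀ L : ℝ, IntegrableOn (fun z : V => |G (y + z)| / ‖z‖ ^ 3) (closedBall (0 : V) L \ closedBall 0 (r / 2)) := by
    intro L
    have hK : IsCompact (closedBall (0 : V) L ∩ {z : V | r / 2 ≤ ‖z‖}) :=
      (isCompact_closedBall _ _).inter_right (isClosed_le continuous_const continuous_norm)
    have h1 : ContinuousOn (fun z : V => |G (y + z)| / ‖z‖ ^ 3) (closedBall (0 : V) L ∩ {z : V | r / 2 ≤ ‖z‖}) := by
      apply ContinuousOn.div
      · exact (hc.comp (continuous_const.add continuous_id)).abs.continuousOn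
      · exact (continuous_norm.pow 3).continuousOn
      · intro z hz
        have : 0 < ‖z‖ := lt_of_lt_of_le (by positivity) hz.2
        positivity
    refine (h1.integrableOn_compact hK).mono_set ?_
    rintro z ⟨hz1, hz2⟩
    refine ⟨hz1, ?_⟩
    rw [mem_closedBall_zero_iff, not_le] at hz2
    exact hz2.le
  induction N with
  | zero =>
    rw [pow_zero, one_mul, sdiff_self, setIntegral_empty, Finset.range_zero, Finset.sum_empty]
  | succ N ih =>
    have h2 : (0 : ℝ) < 2 ^ N := by positivity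
    have hle : (2 : ℝ) ^ N * (r / 2) ≤ 2 ^ (N + 1) * (r / 2) := by
      rw [pow_succ]
      nlinarith
    have hset : closedBall (0 : V) (2 ^ (N + 1) * (r / 2)) \ closedBall 0 (r / 2) ⊆
        (closedBall (0 : V) (2 ^ N * (r / 2)) \ closedBall 0 (r / 2)) ∪
          (closedBall (0 : V) (2 ^ (N + 1) * (r / 2)) \ closedBall 0 (2 ^ N * (r / 2))) := by
      rintro z ⟨hz1, hz2⟩
      by_cases h : z ∈ closedBall (0 : V) (2 ^ N * (r / 2))
      · exact Or.inl ⟨h, hz2⟩
      · exact Or.inr ⟨hz1, h⟩
    have hone : (1 : ℝ) ≤ 2 ^ N := one_le_pow₀ (by norm_num)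
    have hsub : closedBall (0 : V) (2 ^ (N + 1) * (r / 2)) \ closedBall 0 (2 ^ N * (r / 2)) ⊆
        closedBall (0 : V) (2 ^ (N + 1) * (r / 2)) \ closedBall 0 (r / 2) := by
      refine sdiff_subset_sdiff_right (closedBall_subset_closedBall ?_)
      nlinarith
    have hI2 := (hI (2 ^ (N + 1) * (r / 2))).mono_set hsub
    have h3 : (∫ z in closedBall (0 : V) (2 ^ (N + 1) * (r / 2)) \ closedBall 0 (r / 2), |G (y + z)| / ‖z‖ ^ 3) ≤
        (∫ z in closedBall (0 : V) (2 ^ N * (r / 2)) \ closedBall 0 (r / 2), |G (y + z)| / ‖z‖ ^ 3) +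
        ∫ z in closedBall (0 : V) (2 ^ (N + 1) * (r / 2)) \ closedBall 0 (2 ^ N * (r / 2)), |G (y + z)| / ‖z‖ ^ 3 := by
      rw [← setIntegral_union ?_ (measurableSet_closedBall.diff measurableSet_closedBall) (hI _) hI2]
      · refine setIntegral_mono_set ((hI _).union hI2) (Eventually.of_forall fun z => by positivity)
          (Eventually.of_forall hset)
      · rw [Set.disjoint_left]
        rintro z ⟨hz1, _⟩ ⟨_, hz2⟩
        exact hz2 hz1
    have h4 : (∫ z in closedBall (0 : V) (2 ^ (N + 1) * (r / 2)) \ closedBall 0 (2 ^ N * (r / 2)),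
        |G (y + z)| / ‖z‖ ^ 3) ≤ 8 / (2 ^ N * r) ^ 3 * ∫ z in closedBall y (2 ^ N * r), |G z| := by
      have e : (2 : ℝ) ^ (N + 1) * (r / 2) = 2 ^ N * r := by rw [pow_succ]; ring
      rw [← int_tr (fun z => |G z|) y (2 ^ N * r), ← integral_const_mul, e]
      have hIc : IntegrableOn (fun z : V => 8 / (2 ^ N * r) ^ 3 * |G (y + z)|) (closedBall (0 : V) (2 ^ N * r)) :=
        integrableOn_ball (continuous_const.mul (hc.comp (continuous_const.add continuous_id)).abs) _ _
      rw [e] at hI2
      refine (setIntegral_mono_on hI2 (hIc.mono_set sdiff_subset)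
        (measurableSet_closedBall.diff measurableSet_closedBall) ?_).trans
        (setIntegral_mono_set hIc (Eventually.of_forall fun z => by positivity) (Eventually.of_forall sdiff_subset))
      rintro z ⟨_, hz⟩
      rw [mem_closedBall_zero_iff, not_le] at hz
      have h5 : 0 < 2 ^ N * (r / 2) := by positivity
      have h6 : (2 ^ N * (r / 2)) ^ 3 ≤ ‖z‖ ^ 3 := pow_le_pow_left₀ h5.le hz.le 3
      have h7 : 8 / (2 ^ N * r) ^ 3 = 1 / (2 ^ N * (r / 2)) ^ 3 := by
        field_simp
        ring
      rw [h7, div_eq_mul_one_div, mul_comm]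
      refine mul_le_mul_of_nonneg_right ?_ (abs_nonneg _)
      exact one_div_le_one_div_of_le (by positivity) h6
    rw [Finset.sum_range_succ]
    linarith

end Pool.Agent.Q16.CC
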